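import Mathlib

-- part Pool.Agent.Lib.MP_52f1b6_co.Ramsey
section

set_option autoImplicit false

namespace Pool.Agent.Lib.MP_52f1b6_co

open Finset

/-- Finite hypergraph Ramsey theorem. -/
theorem ramsey (κ : Type) [Finite κ] (k : ℕ) : ∀ m : ℕ, ∃ N : ℕ,
    ∀ (α : Type) [DecidableEq α] (X : Finset α) (χ : Finset α → κ), N ≤ X.card →
      ∃ Y ⊆ X, m ≤ Y.card ∧ ∀ A ⊆ Y, ∀ B ⊆ Y, A.card = k → B.card = k → χ A = χ B := by
  induction k with
  | zero =>
    intro m
    refine ⟨m, fun α _ X χ h => ⟨X, Subset.refl _, h, ?_⟩⟩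
    intro A _ B _ hA hB
    rw [card_eq_zero.mp hA, card_eq_zero.mp hB]
  | succ k ih =>
    have aux : ∀ t : ℕ, ∃ N : ℕ,
        ∀ (α : Type) [DecidableEq α] (X : Finset α) (χ : Finset α → κ), N ≤ X.card →
          ∃ T ⊆ X, T.card = t ∧ ∃ γ : α → Option κ, (∀ x ∈ T, γ x ≠ none) ∧
            ∀ A ⊆ T, A.card = k + 1 → ∃ x ∈ A, γ x = some (χ A) := by
      intro t
      induction t with
      | zero =>
        refine ⟨0, fun α _ X χ _ => ⟨∅, empty_subset _, rfl, fun _ => none, by simp, ?_⟩⟩
        intro A hA hc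
        rw [subset_empty.mp hA] at hc
        simp at hc
      | succ t iht =>
        obtain ⟨Nt, hNt⟩ := iht
        obtain ⟨R, hR⟩ := ih (max Nt k)
        refine ⟨R + 1, fun α _ X χ hX => ?_⟩
        obtain ⟨x, hx⟩ : X.Nonempty := card_pos.mp (by omega)
        obtain ⟨Y, hYX, hYc, hY⟩ := hR α (X.erase x) (fun A => χ (insert x A))
          (by rw [card_erase_of_mem hx]; omega)
        obtain ⟨T, hTY, hTc, γ, hγ0, hγ⟩ := hNt α Y χ (le_trans (le_max_left _ _) hYc)
        obtain ⟨A0, hA0Y, hA0c⟩ := exists_subset_card_eq (le_trans (le_max_right Nt k) hYc)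
        have hxT : x ∉ T := fun h => by simpa using hYX (hTY h)
        refine ⟨insert x T, ?_, by rw [card_insert_of_notMem hxT, hTc],
          Function.update γ x (some (χ (insert x A0))), ?_, ?_⟩
        · intro y hy
          rcases mem_insert.mp hy with rfl | hy
          · exact hx
          · exact mem_of_mem_erase (hYX (hTY hy))
        · intro y hy
          by_cases hyx : y = x
          · subst hyx; simp
          · rw [Function.update_of_ne hyx]
            rcases mem_insert.mp hy with h | h
            · exact absurd h hyx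
            · exact hγ0 y h
        · intro A hA hAc
          by_cases hxA : x ∈ A
          · refine ⟨x, hxA, ?_⟩
            have h1 : A.erase x ⊆ Y := by
              intro y hy
              rcases mem_insert.mp (hA (mem_of_mem_erase hy)) with h | h
              · exact absurd h (ne_of_mem_erase hy)
              · exact hTY h
            have h2 : (A.erase x).card = k := by rw [card_erase_of_mem hxA]; omega
            have h3 := hY A0 hA0Y (A.erase x) h1 hA0c h2
            simp only [insert_erase hxA] at h3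
            simp [h3]
          · have h1 : A ⊆ T := by
              intro y hy
              rcases mem_insert.mp (hA hy) with h | h
              · exact absurd (h ▸ hy) hxA
              · exact h
            obtain ⟨y, hy, hy2⟩ := hγ A h1 hAc
            refine ⟨y, hy, ?_⟩
            have : y ≠ x := fun h => hxA (h ▸ hy)
            rw [Function.update_of_ne this, hy2]
    intro m
    classical
    have : Fintype κ := Fintype.ofFinite κ
    obtain ⟨N, hN⟩ := aux (Fintype.card (Option κ) * m)
    refine ⟨N, fun α _ X χ hX => ?_⟩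
    obtain ⟨T, hTX, hTc, γ, _, hγ⟩ := hN α X χ hX
    obtain ⟨b, _, hb⟩ := exists_le_card_fiber_of_mul_le_card_of_maps_to
      (s := T) (t := (univ : Finset (Option κ))) (f := γ) (n := m)
      (fun a _ => mem_univ _) univ_nonempty (by rw [hTc, card_univ])
    refine ⟨T.filter (fun x => γ x = b), (filter_subset _ _).trans hTX, hb, ?_⟩
    intro A hA B hB hAc hBc
    obtain ⟨x, hx, hx2⟩ := hγ A (hA.trans (filter_subset _ _)) hAc
    obtain ⟨y, hy, hy2⟩ := hγ B (hB.trans (filter_subset _ _)) hBc
    have h1 := (mem_filter.mp (hA hx)).2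
    have h2 := (mem_filter.mp (hB hy)).2
    have : some (χ A) = some (χ B) := by rw [← hx2, ← hy2, h1, h2]
    exact Option.some.inj this

/-- `f` is strictly increasing on the first `u` naturals with values in `Y`. -/
def SM {α : Type} [LinearOrder α] (Y : Finset α) (u : ℕ) (f : ℕ → α) : Prop :=
  (∀ i j, i < j → j < u → f i < f j) ∧ ∀ i, i < u → f i ∈ Y

theorem SM.injOn {α : Type} [LinearOrder α] {Y : Finset α} {u : ℕ} {f : ℕ → α}
    (h : SM Y u f) : Set.InjOn f (range u : Finset ℕ) := by
  intro i hi j hj hij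
  have hi' : i < u := by simpa using hi
  have hj' : j < u := by simpa using hj
  rcases lt_trichotomy i j with h1 | h1 | h1
  · exact absurd hij (h.1 i j h1 hj').ne
  · exact h1
  · exact absurd hij (h.1 j i h1 hi').ne'

theorem SM.card_image {α : Type} [LinearOrder α] {Y : Finset α} {u : ℕ} {f : ℕ → α}
    (h : SM Y u f) {P : Finset ℕ} (hP : P ⊆ range u) : (P.image f).card = P.card :=
  card_image_of_injOn (h.injOn.mono (by exact_mod_cast hP))

theorem SM.image_subset {α : Type} [LinearOrder α] {Y : Finset α} {u : ℕ} {f : ℕ → α}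
    (h : SM Y u f) {P : Finset ℕ} (hP : P ⊆ range u) : P.image f ⊆ Y := by
  intro y hy
  obtain ⟨i, hi, rfl⟩ := mem_image.mp hy
  exact h.2 i (mem_range.mp (hP hi))

/-- increasing enumeration of a finite set -/
noncomputable def enum {α : Type} [LinearOrder α] (a : α) (S : Finset α) (i : ℕ) : α :=
  if h : i < S.card then S.orderEmbOfFin rfl ⟨i, h⟩ else a

theorem enum_SM {α : Type} [LinearOrder α] (a : α) (S : Finset α) : SM S S.card (enum a S) := by
  refine ⟨fun i j hij hj => ?_, fun i hi => ?_⟩
  · have hi : i < S.card := lt_trans hij hj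
    simp only [enum, dif_pos hi, dif_pos hj]
    exact (S.orderEmbOfFin rfl).strictMono (by simpa using hij)
  · simp only [enum, dif_pos hi]
    exact orderEmbOfFin_mem _ _ _

theorem image_enum {α : Type} [LinearOrder α] (a : α) (S : Finset α) :
    (range S.card).image (enum a S) = S := by
  apply eq_of_subset_of_card_le ((enum_SM a S).image_subset (Subset.refl _))
  rw [(enum_SM a S).card_image (Subset.refl _), card_range]

theorem enum_image {α : Type} [LinearOrder α] (a : α) {Y : Finset α} {u : ℕ} {f : ℕ → α}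
    (h : SM Y u f) {i : ℕ} (hi : i < u) : enum a ((range u).image f) i = f i := by
  have hc : ((range u).image f).card = u := by rw [h.card_image (Subset.refl _), card_range]
  have hi' : i < ((range u).image f).card := by omega
  simp only [enum, dif_pos hi']
  have := orderEmbOfFin_unique (s := (range u).image f) (k := ((range u).image f).card) rfl
    (f := fun j => f j) (fun j => mem_image.mpr ⟨j, mem_range.mpr (lt_of_lt_of_eq j.2 hc), rfl⟩)
    (fun j j' hjj => h.1 j j' hjj (lt_of_lt_of_eq j'.2 hc))
  rw [← this]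

/-- homogeneity for equality patterns of colours -/
def Hom {α κ : Type} [LinearOrder α] (c : Finset α → κ) (Y : Finset α) (u : ℕ) : Prop :=
  ∀ f f' : ℕ → α, SM Y u f → SM Y u f' → ∀ P ⊆ range u, ∀ Q ⊆ range u,
    c (P.image f) = c (Q.image f) → c (P.image f') = c (Q.image f')

theorem Hom.mono {α κ : Type} [LinearOrder α] {c : Finset α → κ} {Y Y' : Finset α} {u : ℕ}
    (h : Hom c Y u) (hY : Y' ⊆ Y) : Hom c Y' u :=
  fun f f' hf hf' => h f f' ⟨hf.1, fun i hi => hY (hf.2 i hi)⟩ ⟨hf'.1, fun i hi => hY (hf'.2 i hi)⟩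

theorem exists_hom (u m : ℕ) : ∃ N : ℕ,
    ∀ (α κ : Type) [LinearOrder α] (X : Finset α) (c : Finset α → κ), N ≤ X.card →
      ∃ Y ⊆ X, m ≤ Y.card ∧ Hom c Y u := by
  obtain ⟨N, hN⟩ := ramsey ((range u).powerset → (range u).powerset → Prop) u m
  refine ⟨N + 1, fun α κ _ X c hX => ?_⟩
  obtain ⟨a, _⟩ : X.Nonempty := card_pos.mp (by omega)
  obtain ⟨Y, hYX, hYc, hY⟩ := hN α X
    (fun S P Q => c (P.1.image (enum a S)) = c (Q.1.image (enum a S))) (by omega)
  refine ⟨Y, hYX, hYc, ?_⟩
  intro f f' hf hf' P hP Q hQ hc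
  have key : ∀ g : ℕ → α, SM Y u g → ∀ R ⊆ range u,
      R.image (enum a ((range u).image g)) = R.image g := by
    intro g hg R hR
    apply image_congr
    intro i hi
    exact enum_image a hg (mem_range.mp (hR hi))
  have h := hY ((range u).image f) (hf.image_subset (Subset.refl _)) ((range u).image f')
    (hf'.image_subset (Subset.refl _)) (by rw [hf.card_image (Subset.refl _), card_range])
    (by rw [hf'.card_image (Subset.refl _), card_range])
  have h2 := congrFun (congrFun h ⟨P, mem_powerset.mpr hP⟩) ⟨Q, mem_powerset.mpr hQ⟩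
  simp only [key f hf P hP, key f hf Q hQ, key f' hf' P hP, key f' hf' Q hQ] at h2
  exact h2 ▸ hc

end Pool.Agent.Lib.MP_52f1b6_co
end

-- part Pool.Agent.Lib.MP_52f1b6_co.Mono
section

set_option autoImplicit false

namespace Pool.Agent.Lib.MP_52f1b6_co

open Finset

section
variable {α κ : Type} [LinearOrder α]

/-- position `q` is free: changing only the `q`-th element does not change the colour -/
def Free (c : Finset α → κ) (Y : Finset α) (k q : ℕ) : Prop :=
  ∀ g g' : ℕ → α, SM Y k g → SM Y k g' → (∀ i, i < k → i ≠ q → g i = g' i) →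
    c ((range k).image g) = c ((range k).image g')

/-- merge two tuples that differ only at position `q` -/
def merge (g g' : ℕ → α) (q : ℕ) (i : ℕ) : α := if i ≤ q then g i else g' (i - 1)

theorem merge_SM {Y : Finset α} {k q : ℕ} {g g' : ℕ → α} (hq : q < k) (hg : SM Y k g)
    (hg' : SM Y k g') (_h : ∀ i, i < k → i ≠ q → g i = g' i) (hlt : g q < g' q) :
    SM Y (k + 1) (merge g g' q) := by
  refine ⟨fun i j hij hj => ?_, fun i hi => ?_⟩
  · unfold merge
    by_cases h1 : i ≤ q <;> by_cases h2 : j ≤ q
    · rw [if_pos h1, if_pos h2]; exact hg.1 i j hij (by omega)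
    · rw [if_pos h1, if_neg h2]
      have a1 : g i ≤ g q := by
        rcases eq_or_lt_of_le h1 with h3 | h3
        · rw [h3]
        · exact (hg.1 i q h3 hq).le
      have a2 : g' q ≤ g' (j - 1) := by
        rcases eq_or_lt_of_le (show q ≤ j - 1 by omega) with h3 | h3
        · rw [← h3]
        · exact (hg'.1 q (j - 1) h3 (by omega)).le
      exact lt_of_le_of_lt a1 (lt_of_lt_of_le hlt a2)
    · omega
    · rw [if_neg h1, if_neg h2]; exact hg'.1 _ _ (by omega) (by omega)
  · unfold merge
    by_cases h1 : i ≤ q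
    · rw [if_pos h1]; exact hg.2 i (by omega)
    · rw [if_neg h1]; exact hg'.2 _ (by omega)

theorem merge_left {k q : ℕ} {g g' : ℕ → α} (hq : q < k)
    (h : ∀ i, i < k → i ≠ q → g i = g' i) :
    ((range (k + 1)).erase (q + 1)).image (merge g g' q) = (range k).image g := by
  ext y
  simp only [mem_image, mem_erase, mem_range]
  constructor
  · rintro ⟨i, ⟨h1, h2⟩, rfl⟩
    unfold merge
    by_cases h3 : i ≤ q
    · rw [if_pos h3]; exact ⟨i, by omega, rfl⟩
    · rw [if_neg h3]; exact ⟨i - 1, by omega, h _ (by omega) (by omega)⟩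
  · rintro ⟨i, h1, rfl⟩
    by_cases h3 : i ≤ q
    · exact ⟨i, ⟨by omega, by omega⟩, by simp [merge, h3]⟩
    · refine ⟨i + 1, ⟨by omega, by omega⟩, ?_⟩
      unfold merge
      rw [if_neg (by omega), Nat.add_sub_cancel, h i h1 (by omega)]

theorem merge_right {k q : ℕ} {g g' : ℕ → α} (hq : q < k)
    (h : ∀ i, i < k → i ≠ q → g i = g' i) :
    ((range (k + 1)).erase q).image (merge g g' q) = (range k).image g' := by
  ext y
  simp only [mem_image, mem_erase, mem_range]
  constructor
  · rintro ⟨i, ⟨h1, h2⟩, rfl⟩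
    unfold merge
    by_cases h3 : i ≤ q
    · rw [if_pos h3]; exact ⟨i, by omega, (h _ (by omega) h1).symm⟩
    · rw [if_neg h3]; exact ⟨i - 1, by omega, rfl⟩
  · rintro ⟨i, h1, rfl⟩
    by_cases h3 : i < q
    · refine ⟨i, ⟨by omega, by omega⟩, ?_⟩
      unfold merge
      rw [if_pos h3.le, h i h1 (by omega)]
    · refine ⟨i + 1, ⟨by omega, by omega⟩, ?_⟩
      unfold merge
      rw [if_neg (by omega), Nat.add_sub_cancel]

theorem free_of_exists {c : Finset α → κ} {Y : Finset α} {k q : ℕ} (hq : q < k)
    (hH : Hom c Y (k + 1)) {g0 g1 : ℕ → α} (h0 : SM Y k g0) (h1 : SM Y k g1)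
    (h01 : ∀ i, i < k → i ≠ q → g0 i = g1 i) (hlt : g0 q < g1 q)
    (hc : c ((range k).image g0) = c ((range k).image g1)) : Free c Y k q := by
  have main : ∀ g g' : ℕ → α, SM Y k g → SM Y k g' → (∀ i, i < k → i ≠ q → g i = g' i) →
      g q < g' q → c ((range k).image g) = c ((range k).image g') := by
    intro g g' hg hg' h hl
    have := hH (merge g0 g1 q) (merge g g' q) (merge_SM hq h0 h1 h01 hlt)
      (merge_SM hq hg hg' h hl) _ (erase_subset (q + 1) _) _ (erase_subset q _)
      (by rw [merge_left hq h01, merge_right hq h01, hc])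
    rwa [merge_left hq h, merge_right hq h] at this
  intro g g' hg hg' h
  rcases lt_trichotomy (g q) (g' q) with hl | hl | hl
  · exact main g g' hg hg' h hl
  · congr 1
    apply image_congr
    intro i hi
    by_cases hi2 : i = q
    · rw [hi2, hl]
    · exact h i (by simpa using hi) hi2
  · exact (main g' g hg' hg (fun i a b => (h i a b).symm) hl).symm

theorem const_of_free {c : Finset α → κ} {Y : Finset α} {k : ℕ}
    (hF : ∀ q, q < k → Free c Y k q) {g g' : ℕ → α} (hg : SM Y k g) (hg' : SM Y k g') :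
    c ((range k).image g) = c ((range k).image g') := by
  have main : ∀ g g' : ℕ → α, SM Y k g → SM Y k g' →
      c ((range k).image g) = c ((range k).image (fun i => min (g i) (g' i))) := by
    intro g g' hg hg'
    have hSM : ∀ j, SM Y k (fun i => if i < j then min (g i) (g' i) else g i) := by
      intro j
      refine ⟨fun a b hab hb => ?_, fun a ha => ?_⟩
      · by_cases h1 : a < j <;> by_cases h2 : b < j
        · simp only [if_pos h1, if_pos h2]
          exact min_lt_min (hg.1 a b hab hb) (hg'.1 a b hab hb)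
        · simp only [if_pos h1, if_neg h2]
          exact lt_of_le_of_lt (min_le_left _ _) (hg.1 a b hab hb)
        · omega
        · simp only [if_neg h1, if_neg h2]
          exact hg.1 a b hab hb
      · by_cases h1 : a < j
        · simp only [if_pos h1]
          rcases min_choice (g a) (g' a) with h | h <;> rw [h]
          · exact hg.2 a ha
          · exact hg'.2 a ha
        · simp only [if_neg h1]
          exact hg.2 a ha
    have step : ∀ j, j ≤ k → c ((range k).image g) =
        c ((range k).image (fun i => if i < j then min (g i) (g' i) else g i)) := by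
      intro j
      induction j with
      | zero => intro _; simp
      | succ j ih =>
        intro hj
        rw [ih (by omega)]
        apply hF j (by omega) _ _ (hSM j) (hSM (j + 1))
        intro i _ hij
        by_cases h1 : i < j
        · simp only [if_pos h1, if_pos (show i < j + 1 by omega)]
        · simp only [if_neg h1, if_neg (show ¬ i < j + 1 by omega)]
    rw [step k le_rfl]
    congr 1
    apply image_congr
    intro i hi
    have : i < k := by simpa using hi
    simp only [if_pos this]
  rw [main g g' hg hg', main g' g hg' hg]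
  congr 2
  funext i
  exact min_comm _ _

end

theorem SM.ge_index {Y : Finset ℕ} {u : ℕ} {e : ℕ → ℕ} (h : SM Y u e) :
    ∀ d i, i + d < u → e i + d ≤ e (i + d) := by
  intro d
  induction d with
  | zero => intro i _; simp
  | succ d ih =>
    intro i hi
    have h1 := ih i (by omega)
    have h2 := h.1 (i + d) (i + (d + 1)) (by omega) hi
    omega

/-- the twin property forces a monochromatic set -/
theorem mono (k l w : ℕ) (hkl : k < l) : ∃ N : ℕ,
    ∀ (α κ : Type) [LinearOrder α] (X : Finset α) (c : Finset α → κ), N ≤ X.card →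
      (∀ L ⊆ X, L.card = l → ∀ W ⊆ X, Disjoint L W → W.card = w →
        ∃ L' ⊆ L ∪ W, L'.card = l ∧ L' ≠ L ∧
          ∀ K ⊆ L', K.card = k → ∃ K' ⊆ L, K'.card = k ∧ c K' = c K) →
      ∃ L ⊆ X, L.card = l ∧ ∀ K ⊆ L, ∀ K' ⊆ L, K.card = k → K'.card = k → c K = c K' := by
  obtain ⟨N1, hN1⟩ := exists_hom (k + 1) (2 * (l + w))
  obtain ⟨N2, hN2⟩ := exists_hom (l + w) N1
  refine ⟨N2, fun α κ _ X c hX hP => ?_⟩
  obtain ⟨Y2, hY2X, hY2c, hY2⟩ := hN2 α κ X c hX
  obtain ⟨Y, hYY2, hYc, hH1⟩ := hN1 α κ Y2 c hY2c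
  have hH2 : Hom c Y (l + w) := hY2.mono hYY2
  have hYX : Y ⊆ X := hYY2.trans hY2X
  obtain ⟨a, _⟩ : Y.Nonempty := card_pos.mp (by omega)
  have hψ := enum_SM a Y
  set ψ := enum a Y with hψdef
  have hF : ∀ q, q < k → Free c Y k q := by
    intro q hq
    set f0 : ℕ → α := fun i => ψ (2 * i) with hf0
    have hf0SM : SM Y (l + w) f0 :=
      ⟨fun i j hij hj => hψ.1 _ _ (by omega) (by omega), fun i hi => hψ.2 _ (by omega)⟩
    set PW : Finset ℕ := Ico (q + 1) (q + 1 + w) with hPW
    set P0 : Finset ℕ := range (l + w) \ PW with hP0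
    have hPWs : PW ⊆ range (l + w) := by
      intro i hi
      rw [hPW, mem_Ico] at hi
      exact mem_range.mpr (by omega)
    have hP0s : P0 ⊆ range (l + w) := sdiff_subset
    have hPWc : PW.card = w := by rw [hPW, Nat.card_Ico]; omega
    have hP0c : P0.card = l := by
      rw [hP0, card_sdiff_of_subset hPWs, card_range, hPWc]; omega
    have hdis : Disjoint (P0.image f0) (PW.image f0) := by
      rw [disjoint_left]
      intro y hy hy2
      obtain ⟨i, hi, rfl⟩ := mem_image.mp hy
      obtain ⟨j, hj, hij⟩ := mem_image.mp hy2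
      have := hf0SM.injOn (hPWs hj) (hP0s hi) hij
      subst this
      exact (mem_sdiff.mp hi).2 hj
    obtain ⟨L', hL's, hL'c, hL'ne, hL'⟩ := hP (P0.image f0)
      ((hf0SM.image_subset hP0s).trans hYX) (by rw [hf0SM.card_image hP0s, hP0c])
      (PW.image f0) ((hf0SM.image_subset hPWs).trans hYX) hdis
      (by rw [hf0SM.card_image hPWs, hPWc])
    rw [← image_union, hP0, sdiff_union_of_subset hPWs] at hL's
    obtain ⟨P', hP's, rfl⟩ := subset_image_iff.mp hL's
    have hP'c : P'.card = l := by rw [← hf0SM.card_image hP's, hL'c]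
    have hP'ne : P' ≠ P0 := fun h => hL'ne (by rw [h])
    have he := enum_SM 0 P'
    have heim := image_enum 0 P'
    rw [hP'c] at he heim
    set e := enum 0 P' with hedef
    have helt : ∀ i, i < l → e i < l + w := fun i hi => mem_range.mp (hP's (he.2 i hi))
    have hs : ∃ s, s ≤ 1 ∧ e (q + s) ∈ PW := by
      by_contra hcon
      push Not at hcon
      have a0 := hcon 0 (by omega)
      have a1 := hcon 1 le_rfl
      rw [hPW, mem_Ico] at a0 a1
      simp only [Nat.add_zero] at a0
      have b1 := he.ge_index (l - 1 - q) q (by omega)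
      have b2 := helt (q + (l - 1 - q)) (by omega)
      have b3 := he.ge_index (q + 1) 0 (by omega)
      rw [Nat.zero_add] at b3
      apply hP'ne
      apply eq_of_subset_of_card_le _ (by omega)
      intro i hi
      refine mem_sdiff.mpr ⟨hP's hi, ?_⟩
      rw [← heim] at hi
      obtain ⟨j, hj, rfl⟩ := mem_image.mp hi
      have hj' := mem_range.mp hj
      rw [hPW, mem_Ico]
      rcases lt_trichotomy j q with h | h | h
      · have := he.1 j q h (by omega); omega
      · subst h; omega
      · rcases eq_or_lt_of_le (show q + 1 ≤ j by omega) with h2 | h2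
        · subst h2; omega
        · have := he.1 (q + 1) j h2 hj'; omega
    obtain ⟨s, hs1, hsW⟩ := hs
    set j := e (q + s) with hj
    have hjlt : j < l + w := helt _ (by omega)
    set f1 : ℕ → α := fun i => if i = j then ψ (2 * j + 1) else ψ (2 * i) with hf1
    have hf1SM : SM Y (l + w) f1 := by
      refine ⟨fun i i' hii hi' => ?_, fun i hi => ?_⟩
      · simp only [hf1]
        split_ifs <;> exact hψ.1 _ _ (by omega) (by omega)
      · simp only [hf1]
        split_ifs <;> exact hψ.2 _ (by omega)
    have hes : ∀ i i', i < i' → i' < k → e (i + s) < e (i' + s) :=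
      fun i i' h h' => he.1 _ _ (by omega) (by omega)
    set P : Finset ℕ := (range k).image (fun i => e (i + s)) with hPdef
    have hPP' : P ⊆ P' := by
      intro i hi
      obtain ⟨i', hi', rfl⟩ := mem_image.mp hi
      exact he.2 _ (by have := mem_range.mp hi'; omega)
    have hPSM : SM P' k (fun i => e (i + s)) := ⟨hes, fun i hi => he.2 _ (by omega)⟩
    have hPc : P.card = k := by rw [hPdef, hPSM.card_image (Subset.refl _), card_range]
    have hPs : P ⊆ range (l + w) := hPP'.trans hP's
    obtain ⟨B, hBs, _, hBc⟩ := hL' (P.image f0) (image_subset_image hPP')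
      (by rw [hf0SM.card_image hPs, hPc])
    obtain ⟨Q, hQs, rfl⟩ := subset_image_iff.mp hBs
    have hjQ : j ∉ Q := fun h => (mem_sdiff.mp (hQs h)).2 hsW
    have h1 := hH2 f0 f1 hf0SM hf1SM P hPs Q (hQs.trans hP0s) hBc.symm
    have h2 : Q.image f1 = Q.image f0 := by
      apply image_congr
      intro i hi
      have : i ≠ j := fun h => hjQ (h ▸ hi)
      simp only [hf1, hf0, if_neg this]
    rw [h2, hBc, hPdef, image_image, image_image] at h1
    refine free_of_exists hq hH1 (g0 := f0 ∘ fun i => e (i + s)) (g1 := f1 ∘ fun i => e (i + s))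
      ⟨fun i i' h h' => hf0SM.1 _ _ (hes i i' h h') (helt _ (by omega)),
        fun i hi => hf0SM.2 _ (helt _ (by omega))⟩
      ⟨fun i i' h h' => hf1SM.1 _ _ (hes i i' h h') (helt _ (by omega)),
        fun i hi => hf1SM.2 _ (helt _ (by omega))⟩ ?_ ?_ h1.symm
    · intro i hi hiq
      have : e (i + s) ≠ j := by
        rcases lt_or_gt_of_ne hiq with h | h
        · exact (hes i q h hq).ne
        · exact (hes q i h hi).ne'
      simp only [Function.comp, hf1, hf0, if_neg this]
    · simp only [Function.comp, hf1, hf0, ← hj, if_true]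
      exact hψ.1 _ _ (by omega) (by omega)
  obtain ⟨L, hLY, hLc⟩ := exists_subset_card_eq (show l ≤ Y.card by omega)
  refine ⟨L, hLY.trans hYX, hLc, fun K hK K' hK' hKc hK'c => ?_⟩
  have hg := enum_SM a K
  have hg' := enum_SM a K'
  have hi := image_enum a K
  have hi' := image_enum a K'
  rw [hKc] at hg hi
  rw [hK'c] at hg' hi'
  rw [← hi, ← hi']
  exact const_of_free hF ⟨hg.1, fun i h => hLY (hK (hg.2 i h))⟩
    ⟨hg'.1, fun i h => hLY (hK' (hg'.2 i h))⟩

/-- the main combinatorial statement for one value of `k` -/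
def KeyAt (d w k N : ℕ) : Prop :=
  ∀ (α κ : Type) [LinearOrder α] (X : Finset α) (c : Finset α → κ) (D : κ → Prop),
    N ≤ X.card →
    (∀ L ⊆ X, L.card = k + d → (∃ K ⊆ L, K.card = k ∧ D (c K)) →
      ∀ W ⊆ X, Disjoint L W → W.card = w →
        ∃ L' ⊆ L ∪ W, L'.card = k + d ∧ L' ≠ L ∧ (∃ K ⊆ L', K.card = k ∧ D (c K)) ∧
          ∀ K ⊆ L', K.card = k → D (c K) → ∃ K' ⊆ L, K'.card = k ∧ c K' = c K) →
    (∃ K ⊆ X, K.card = k ∧ D (c K)) →
    ∃ L ⊆ X, L.card = k + d ∧ ∃ K ⊆ L, K.card = k ∧ D (c K) ∧
      ∀ K' ⊆ L, K'.card = k → D (c K') → c K' = c K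

theorem key_step (d w k M : ℕ) (hd : 0 < d) (ih : ∀ k' < k, KeyAt d w k' M) :
    ∃ N, KeyAt d w k N := by
  classical
  obtain ⟨N1, hN1⟩ := mono k (k + d) w (by omega)
  obtain ⟨N, hN⟩ := ramsey Prop k (max (max N1 M) k)
  refine ⟨N, fun α κ _ X c D hX hP hK => ?_⟩
  obtain ⟨Y, hYX, hYc, hY⟩ := hN α X (fun K => D (c K)) hX
  have hYc1 : N1 ≤ Y.card := le_trans (le_trans (le_max_left _ _) (le_max_left _ _)) hYc
  have hYc2 : M ≤ Y.card := le_trans (le_trans (le_max_right _ _) (le_max_left _ _)) hYc
  by_cases hall : ∃ K ⊆ Y, K.card = k ∧ D (c K)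
  · obtain ⟨K0, hK0, hK0c, hK0D⟩ := hall
    have hD : ∀ K ⊆ Y, K.card = k → D (c K) := fun K h hc => by
      have := hY K0 hK0 K h hK0c hc
      exact this ▸ hK0D
    obtain ⟨L, hLY, hLc, hL⟩ := hN1 α κ Y c hYc1 (by
      intro L hL hLc W hW hdis hWc
      obtain ⟨K, hKL, hKc⟩ := exists_subset_card_eq (show k ≤ L.card by omega)
      obtain ⟨L', h1, h2, h3, _, h5⟩ := hP L (hL.trans hYX) hLc
        ⟨K, hKL, hKc, hD K (hKL.trans hL) hKc⟩ W (hW.trans hYX) hdis hWc
      refine ⟨L', h1, h2, h3, fun K' hK' hK'c => h5 K' hK' hK'c (hD K' ?_ hK'c)⟩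
      exact hK'.trans (h1.trans (union_subset hL hW)))
    obtain ⟨K, hKL, hKc⟩ := exists_subset_card_eq (show k ≤ L.card by omega)
    exact ⟨L, hLY.trans hYX, hLc, K, hKL, hKc, hD K (hKL.trans hLY) hKc,
      fun K' hK' hK'c _ => hL K' hK' K hKL hK'c hKc⟩
  · have hex : ∃ m, ∃ K ⊆ X, K.card = k ∧ D (c K) ∧ (K \ Y).card = m := by
      obtain ⟨K, h1, h2, h3⟩ := hK
      exact ⟨_, K, h1, h2, h3, rfl⟩
    obtain ⟨K0, hK0X, hK0c, hK0D, hK0m⟩ := Nat.find_spec hex
    have hmin : ∀ K ⊆ X, K.card = k → D (c K) → Nat.find hex ≤ (K \ Y).card :=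
      fun K h1 h2 h3 => Nat.find_min' hex ⟨K, h1, h2, h3, rfl⟩
    set m := Nat.find hex with hm
    set Z := K0 \ Y with hZ
    have hZX : Z ⊆ X := sdiff_subset.trans hK0X
    have hZY : Disjoint Z Y := sdiff_disjoint
    have hm0 : 0 < m := by
      rcases Nat.eq_zero_or_pos m with h | h
      · exfalso
        apply hall
        rw [h, card_eq_zero, hZ, sdiff_eq_empty_iff_subset] at hK0m
        exact ⟨K0, hK0m, hK0c, hK0D⟩
      · exact h
    have hmk : m ≤ k := by rw [← hK0m, ← hK0c]; exact card_le_card sdiff_subset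
    have hZsub : ∀ K ⊆ Z ∪ Y, K.card = k → D (c K) → Z ⊆ K := by
      intro K h1 h2 h3
      have h4 := hmin K (h1.trans (union_subset hZX hYX)) h2 h3
      have h5 : K \ Y ⊆ Z := by
        intro y hy
        rcases mem_union.mp (h1 (mem_sdiff.mp hy).1) with h | h
        · exact h
        · exact absurd h (mem_sdiff.mp hy).2
      have h6 : K \ Y = Z := eq_of_subset_of_card_le h5 (by omega)
      rw [← h6]
      exact sdiff_subset
    have hcardU : ∀ A ⊆ Y, (Z ∪ A).card = m + A.card := by
      intro A hA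
      rw [card_union_of_disjoint (hZY.mono_right hA), hK0m]
    have hcardS : ∀ A : Finset α, Z ⊆ A → (A \ Z).card = A.card - m := by
      intro A hA
      rw [card_sdiff_of_subset hA, hK0m]
    have hsub : ∀ A B : Finset α, A ⊆ Z ∪ B → A \ Z ⊆ B := by
      intro A B h y hy
      rcases mem_union.mp (h (mem_sdiff.mp hy).1) with h' | h'
      · exact absurd h' (mem_sdiff.mp hy).2
      · exact h'
    obtain ⟨L1, hL1Y, hL1c, K1, hK1, hK1c, hK1D, hK1u⟩ := ih (k - m) (by omega) α κ Y
      (fun A => c (Z ∪ A)) D hYc2 (by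
        intro L1 hL1 hL1c ⟨K1, hK1, hK1c, hK1D⟩ W hW hdis hWc
        obtain ⟨L', h1, h2, h3, ⟨K', h41, h42, h43⟩, h5⟩ := hP (Z ∪ L1)
          (union_subset hZX (hL1.trans hYX)) (by rw [hcardU L1 hL1]; omega)
          ⟨Z ∪ K1, union_subset_union_right hK1, by rw [hcardU K1 (hK1.trans hL1)]; omega, hK1D⟩
          W (hW.trans hYX) (disjoint_union_left.mpr ⟨hZY.mono_right hW, hdis⟩) hWc
        rw [union_assoc] at h1
        have hL'Y : L' ⊆ Z ∪ Y := h1.trans (union_subset_union_right (union_subset hL1 hW))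
        have hZK' : Z ⊆ K' := hZsub K' (h41.trans hL'Y) h42 h43
        have hZL' : Z ⊆ L' := hZK'.trans h41
        refine ⟨L' \ Z, hsub _ _ h1, by rw [hcardS L' hZL']; omega, ?_,
          ⟨K' \ Z, sdiff_subset_sdiff h41 (Subset.refl _), by rw [hcardS K' hZK']; omega, ?_⟩, ?_⟩
        · intro h
          apply h3
          rw [← h, union_sdiff_of_subset hZL']
        · simp only [union_sdiff_of_subset hZK']
          exact h43
        · intro K hK hKc hKD
          have hKY : K ⊆ Y := hK.trans (hsub _ _ hL'Y)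
          obtain ⟨K'', a1, a2, a3⟩ := h5 (Z ∪ K) (union_subset hZL' (hK.trans sdiff_subset))
            (by rw [hcardU K hKY]; omega) hKD
          have hZK'' : Z ⊆ K'' := hZsub K'' (a1.trans (union_subset_union_right hL1)) a2
            (by rw [a3]; exact hKD)
          refine ⟨K'' \ Z, hsub _ _ a1, by rw [hcardS K'' hZK'']; omega, ?_⟩
          simp only [union_sdiff_of_subset hZK'']
          exact a3)
      ⟨K0 \ Z, hsub _ _ (by
          intro y hy
          by_cases h : y ∈ Y
          · exact mem_union_right _ h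
          · exact mem_union_left _ (mem_sdiff.mpr ⟨hy, h⟩)),
        by rw [hcardS K0 sdiff_subset]; omega, by
          simp only [union_sdiff_of_subset (show Z ⊆ K0 from sdiff_subset)]
          exact hK0D⟩
    refine ⟨Z ∪ L1, union_subset hZX (hL1Y.trans hYX), by rw [hcardU L1 hL1Y]; omega,
      Z ∪ K1, union_subset_union_right hK1, by rw [hcardU K1 (hK1.trans hL1Y)]; omega, hK1D, ?_⟩
    intro K' hK' hK'c hK'D
    have hZK' : Z ⊆ K' := hZsub K' (hK'.trans (union_subset_union_right hL1Y)) hK'c hK'D
    have := hK1u (K' \ Z) (hsub _ _ hK') (by rw [hcardS K' hZK']; omega)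
      (by simp only [union_sdiff_of_subset hZK']; exact hK'D)
    simpa only [union_sdiff_of_subset hZK'] using this

theorem KeyAt.mono {d w k N N' : ℕ} (h : KeyAt d w k N) (hN : N ≤ N') : KeyAt d w k N' :=
  fun α κ _ X c D hX => h α κ X c D (le_trans hN hX)

theorem key (d w : ℕ) (hd : 0 < d) : ∀ k, ∃ M, ∀ k' < k, KeyAt d w k' M := by
  intro k
  induction k with
  | zero => exact ⟨0, fun k' h => absurd h (Nat.not_lt_zero _)⟩
  | succ k ih =>
    obtain ⟨M, hM⟩ := ih
    obtain ⟨N, hN⟩ := key_step d w k M hd hM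
    refine ⟨max M N, fun k' hk' => ?_⟩
    rcases eq_or_lt_of_le (Nat.lt_succ_iff.mp hk') with h | h
    · rw [h]; exact hN.mono (le_max_right _ _)
    · exact (hM k' h).mono (le_max_left _ _)

end Pool.Agent.Lib.MP_52f1b6_co
end

-- part Pool.Agent.Lib.MP_52f1b6_co.Rank
section

set_option autoImplicit false

namespace Pool.Agent.Lib.MP_52f1b6_co

open Finset

theorem swap_const {α β : Type} [DecidableEq α] (X : Finset α) (f : Finset α → β) (k : ℕ)
    (h : ∀ A ⊆ X, A.card = k → ∀ x ∈ X, ∀ y ∈ X, x ∉ A → y ∉ A →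
      f (insert x A) = f (insert y A)) :
    ∀ n, ∀ K ⊆ X, ∀ K' ⊆ X, K.card = k + 1 → K'.card = k + 1 → (K \ K').card = n →
      f K = f K' := by
  intro n
  induction n with
  | zero =>
    intro K _ K' _ h1 h2 h3
    rw [card_eq_zero, sdiff_eq_empty_iff_subset] at h3
    rw [eq_of_subset_of_card_le h3 (by omega)]
  | succ n ih =>
    intro K hK K' hK' h1 h2 h3
    obtain ⟨x, hx⟩ : (K \ K').Nonempty := card_pos.mp (by omega)
    obtain ⟨y, hy⟩ : (K' \ K).Nonempty := by
      apply card_pos.mp
      rw [← card_sdiff_comm (h1.trans h2.symm)]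
      omega
    obtain ⟨hxK, hxK'⟩ := mem_sdiff.mp hx
    obtain ⟨hyK', hyK⟩ := mem_sdiff.mp hy
    have hc : (K.erase x).card = k := by rw [card_erase_of_mem hxK]; omega
    have hy2 : y ∉ K.erase x := fun h => hyK (mem_of_mem_erase h)
    have e1 := h (K.erase x) ((erase_subset _ _).trans hK) hc x (hK hxK) y (hK' hyK')
      (notMem_erase _ _) hy2
    rw [insert_erase hxK] at e1
    rw [e1]
    apply ih _ (insert_subset (hK' hyK') ((erase_subset _ _).trans hK)) K' hK'
      (by rw [card_insert_of_notMem hy2, hc]) h2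
    have : insert y (K.erase x) \ K' = (K \ K').erase x := by
      ext z
      simp only [mem_sdiff, mem_insert, mem_erase]
      constructor
      · rintro ⟨rfl | ⟨a, b⟩, c⟩
        · exact absurd hyK' c
        · exact ⟨a, b, c⟩
      · rintro ⟨a, b, c⟩
        exact ⟨Or.inr ⟨a, b⟩, c⟩
    rw [this, card_erase_of_mem hx]
    omega

theorem sum_powersetCard_insert' {α : Type} [DecidableEq α] (f : Finset α → ℚ) (k : ℕ)
    {x : α} {L : Finset α} (hx : x ∉ L) :
    ∑ K ∈ powersetCard (k + 1) (insert x L), f K =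
      ∑ K ∈ powersetCard (k + 1) L, f K + ∑ A ∈ powersetCard k L, f (insert x A) := by
  rw [powersetCard_succ_insert hx, sum_union, sum_image]
  · intro A hA B hB hAB
    have hA' : x ∉ A := fun h => hx ((mem_powersetCard.mp hA).1 h)
    have hB' : x ∉ B := fun h => hx ((mem_powersetCard.mp hB).1 h)
    rw [← erase_insert hA', ← erase_insert hB']
    exact congrArg (fun S => erase S x) hAB
  · rw [disjoint_left]
    intro K hK hK2
    obtain ⟨A, _, rfl⟩ := mem_image.mp hK2
    exact hx ((mem_powersetCard.mp hK).1 (mem_insert_self _ _))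

/-- the inclusion matrix of `k`-sets versus `l`-sets has full rank -/
theorem gottlieb {α : Type} [DecidableEq α] (k : ℕ) : ∀ (l : ℕ) (X : Finset α)
    (f : Finset α → ℚ), k ≤ l → k + l ≤ X.card →
    (∀ L ⊆ X, L.card = l → ∑ K ∈ powersetCard k L, f K = 0) →
    ∀ K ⊆ X, K.card = k → f K = 0 := by
  induction k with
  | zero =>
    intro l X f _ hX h K _ hK
    obtain ⟨L, hL, hLc⟩ := exists_subset_card_eq (show l ≤ X.card by omega)
    have := h L hL hLc
    rw [powersetCard_zero, sum_singleton] at this
    rw [card_eq_zero.mp hK, this]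
  | succ k ih =>
    intro l X f hkl hX h K hK hKc
    obtain ⟨l', rfl⟩ : ∃ l', l = l' + 1 := ⟨l - 1, by omega⟩
    have hswap : ∀ A ⊆ X, A.card = k → ∀ x ∈ X, ∀ y ∈ X, x ∉ A → y ∉ A →
        f (insert x A) = f (insert y A) := by
      intro A hA hAc x hx y hy hxA hyA
      by_cases hxy : x = y
      · rw [hxy]
      have hyx : y ∈ X.erase x := mem_erase.mpr ⟨fun h => hxy h.symm, hy⟩
      have := ih l' ((X.erase x).erase y) (fun B => f (insert x B) - f (insert y B)) (by omega)
        (by rw [card_erase_of_mem hyx, card_erase_of_mem hx]; omega) (by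
          intro L hL hLc
          have hxL : x ∉ L := fun h => by simpa using hL h
          have hyL : y ∉ L := fun h => by simpa using hL h
          have hLX : L ⊆ X := hL.trans ((erase_subset _ _).trans (erase_subset _ _))
          have e1 := h (insert x L) (insert_subset hx hLX)
            (by rw [card_insert_of_notMem hxL, hLc])
          have e2 := h (insert y L) (insert_subset hy hLX)
            (by rw [card_insert_of_notMem hyL, hLc])
          rw [sum_powersetCard_insert' f k hxL] at e1
          rw [sum_powersetCard_insert' f k hyL] at e2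
          rw [sum_sub_distrib]
          linarith) A (by
          intro z hz
          refine mem_erase.mpr ⟨fun h => hyA (h ▸ hz), mem_erase.mpr ⟨fun h => hxA (h ▸ hz), hA hz⟩⟩)
        hAc
      linarith
    obtain ⟨L, hL, hLc⟩ := exists_subset_card_eq (show l' + 1 ≤ X.card by omega)
    have e := h L hL hLc
    rw [sum_congr rfl (g := fun _ => f K) (fun K' hK' => swap_const X f k hswap _ K'
      ((mem_powersetCard.mp hK').1.trans hL) K hK (mem_powersetCard.mp hK').2 hKc rfl),
      sum_const, card_powersetCard, hLc, nsmul_eq_mul] at e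
    have hpos : ((l' + 1).choose (k + 1) : ℚ) ≠ 0 := by
      exact_mod_cast (Nat.choose_pos hkl).ne'
    exact (mul_eq_zero.mp e).resolve_left hpos

theorem sum_count {α : Type} {r : ℕ} (c : Finset α → Fin r) (lam : Fin r → ℚ)
    (T : Finset (Finset α)) :
    ∑ i : Fin r, lam i * ((T.filter (fun K => c K = i)).card : ℚ) = ∑ K ∈ T, lam (c K) := by
  rw [← sum_fiberwise_of_maps_to (s := T) (t := univ) (g := c) (fun _ _ => mem_univ _)]
  apply sum_congr rfl
  intro i _
  rw [sum_congr rfl (g := fun _ => lam i) (fun K hK => by rw [(mem_filter.mp hK).2]),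
    sum_const, nsmul_eq_mul, mul_comm]

/-- if the number of schemes equals the number of colours then every `l`-set has a twin -/
theorem twin {n r k l : ℕ} (hkl : k < l) (hn : k + l ≤ n) (c : Finset (Fin n) → Fin r)
    (hsurj : ∀ i : Fin r, ∃ K : Finset (Fin n), K.card = k ∧ c K = i)
    (hcard : (((Finset.univ : Finset (Finset (Fin n))).filter (fun L => L.card = l)).image
      (fun L => fun i : Fin r => ((L.powersetCard k).filter (fun K => c K = i)).card)).card = r)
    (L W : Finset (Fin n)) (hL : L.card = l) (hdis : Disjoint L W) (hW : W.card = k + 1) :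
    ∃ L' ⊆ L ∪ W, L'.card = l ∧ L' ≠ L ∧ ∀ i : Fin r,
      ((L'.powersetCard k).filter (fun K => c K = i)).card =
        ((L.powersetCard k).filter (fun K => c K = i)).card := by
  classical
  set sch : Finset (Fin n) → Fin r → ℕ :=
    fun L => fun i : Fin r => ((L.powersetCard k).filter (fun K => c K = i)).card with hsch
  set T := ((Finset.univ : Finset (Finset (Fin n))).filter (fun L => L.card = l)).image sch
    with hT
  have hmem : ∀ L : Finset (Fin n), L.card = l → sch L ∈ T :=
    fun L h => mem_image.mpr ⟨L, mem_filter.mpr ⟨mem_univ _, h⟩, rfl⟩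
  let Φ : (Fin r → ℚ) →ₗ[ℚ] (T → ℚ) :=
    { toFun := fun lam τ => ∑ i : Fin r, lam i * (τ.1 i : ℚ)
      map_add' := by
        intro a b
        funext τ
        simp [add_mul, sum_add_distrib]
      map_smul' := by
        intro a b
        funext τ
        simp [mul_sum, mul_assoc] }
  have hΦ : ∀ (lam : Fin r → ℚ) (L : Finset (Fin n)) (h : L.card = l),
      Φ lam ⟨sch L, hmem L h⟩ = ∑ K ∈ powersetCard k L, lam (c K) :=
    fun lam L h => sum_count c lam _
  have hinj : Function.Injective Φ := by
    rw [injective_iff_map_eq_zero]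
    intro lam hlam
    funext i
    obtain ⟨K, hK, rfl⟩ := hsurj i
    exact gottlieb k l univ (fun K => lam (c K)) hkl.le (by simpa using hn)
      (fun L _ h => by rw [← hΦ lam L h, hlam]; rfl) K (subset_univ _) hK
  have hsur : Function.Surjective Φ :=
    (LinearMap.injective_iff_surjective_of_finrank_eq_finrank (by
      rw [Module.finrank_fintype_fun_eq_card, Module.finrank_fintype_fun_eq_card,
        Fintype.card_fin, Fintype.card_coe, hcard])).mp hinj
  obtain ⟨lam, hlam⟩ := hsur (Pi.single ⟨sch L, hmem L hL⟩ 1)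
  by_contra hcon
  have h1 : ∑ K ∈ powersetCard k L, lam (c K) = 1 := by
    rw [← hΦ lam L hL, hlam, Pi.single_eq_same]
  have h0 : ∀ K ∈ powersetCard k L, lam (c K) = 0 := by
    intro K hK
    obtain ⟨hKL, hKc⟩ := mem_powersetCard.mp hK
    obtain ⟨x, hxL, hxK⟩ := exists_mem_notMem_of_card_lt_card (show K.card < L.card by omega)
    refine gottlieb k l ((L ∪ W).erase x) (fun K => lam (c K)) hkl.le ?_ ?_ K ?_ hKc
    · rw [card_erase_of_mem (mem_union_left _ hxL), card_union_of_disjoint hdis]
      omega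
    · intro L' hL' hL'c
      rw [← hΦ lam L' hL'c, hlam, Pi.single_eq_of_ne]
      intro h
      apply hcon
      refine ⟨L', hL'.trans (erase_subset _ _), hL'c, ?_, fun i => congrFun (Subtype.ext_iff.mp h) i⟩
      intro h2
      have := hL' (h2 ▸ hxL)
      simp at this
    · intro z hz
      exact mem_erase.mpr ⟨fun h => hxK (h ▸ hz), mem_union_left _ (hKL hz)⟩
  rw [sum_eq_zero h0] at h1
  exact zero_ne_one h1

end Pool.Agent.Lib.MP_52f1b6_co
end
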